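import Pool.Agent.Lib.MP_3240be_co.H51.Defs

/-!
# MP_3240be_co, row CPT: compactness

If every finite set of vertices of `F` carries a `T`-free colouring, so does `F` (an ultrafilter
limit of the colourings).
-/

set_option autoImplicit false

namespace MP3240T

open Finset

/-- a symmetric colouring without a monochromatic `T` inside `S` -/
def GoodOn {V : Type} (F : SimpleGraph V) {n : ℕ} (T : SimpleGraph (Fin n)) (S : Finset V)
    (c : V → V → Bool) : Prop :=
  (∀ x y, c x y = c y x) ∧ ∀ b : Bool, ¬ ∃ f : Fin n → V, Function.Injective f ∧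
    (∀ i, f i ∈ S) ∧ ∀ i j, T.Adj i j → (cls F c b).Adj (f i) (f j)

theorem cpt_limit {V : Type} (F : SimpleGraph V) {n : ℕ} (T : SimpleGraph (Fin n))
    (h : ∀ S : Finset V, ∃ c : V → V → Bool, GoodOn F T S c) : ¬ Arr F T := by
  classical
  choose c hc using h
  let U : Ultrafilter (Finset V) := Ultrafilter.of Filter.atTop
  have hU : (U : Filter (Finset V)) ≤ Filter.atTop := Ultrafilter.of_le _
  let C : V → V → Bool := fun x y => decide (∀ᶠ S in (U : Filter (Finset V)), c S x y = true)
  have hC : ∀ x y b, C x y = b → ∀ᶠ S in (U : Filter (Finset V)), c S x y = b := by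
    intro x y b hb
    cases b with
    | true => exact of_decide_eq_true hb
    | false =>
      have h1 : ¬ ∀ᶠ S in (U : Filter (Finset V)), c S x y = true := of_decide_eq_false hb
      have h2 := Ultrafilter.eventually_not.mpr h1
      filter_upwards [h2] with S hS
      cases hcs : c S x y
      · rfl
      · exact absurd hcs hS
  have hsym : ∀ x y, C x y = C y x := by
    intro x y
    have : ∀ S, c S x y = c S y x := fun S => (hc S).1 x y
    simp only [C, this]
  intro hA
  obtain ⟨b, f, hfi, hfa⟩ := hA C hsym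
  have h1 : ∀ᶠ S in (U : Filter (Finset V)), Finset.univ.image f ⊆ S :=
    hU (Filter.eventually_ge_atTop (Finset.univ.image f))
  have h2 : ∀ᶠ S in (U : Filter (Finset V)), ∀ i j, T.Adj i j →
      c S (f i) (f j) = b ∧ c S (f j) (f i) = b := by
    rw [Filter.eventually_all]
    intro i
    rw [Filter.eventually_all]
    intro j
    by_cases hij : T.Adj i j
    · have h3 := hfa i j hij
      filter_upwards [hC _ _ _ h3.2.1, hC _ _ _ h3.2.2] with S hS1 hS2 _
      exact ⟨hS1, hS2⟩
    · exact Filter.Eventually.of_forall fun S h => absurd h hij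
  obtain ⟨S, hS1, hS2⟩ := (h1.and h2).exists
  refine (hc S).2 b ⟨f, hfi, fun i => hS1 (Finset.mem_image_of_mem f (Finset.mem_univ i)), ?_⟩
  intro i j hij
  exact ⟨(hfa i j hij).1, (hS2 i j hij).1, (hS2 i j hij).2⟩

theorem cpt_proof : CptStatement := by
  classical
  intro V F n n' T T' hT hT'
  obtain ⟨S, hS⟩ : ∃ S : Finset V, ∀ c : V → V → Bool, ¬ GoodOn F T S c := by
    by_contra hcon
    push Not at hcon
    exact cpt_limit F T hcon hT
  let e : Fin S.card ≃ S := S.equivFin.symm
  refine ⟨S.card, F.comap (fun i => (e i : V)), ?_, ?_⟩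
  · intro c0 hc0
    let c : V → V → Bool := fun x y =>
      if h : x ∈ S ∧ y ∈ S then c0 (e.symm ⟨x, h.1⟩) (e.symm ⟨y, h.2⟩) else true
    have hsym : ∀ x y, c x y = c y x := by
      intro x y
      by_cases h : x ∈ S ∧ y ∈ S
      · have h' : y ∈ S ∧ x ∈ S := ⟨h.2, h.1⟩
        simp only [c, h, h', dif_pos, and_self]
        exact hc0 _ _
      · have h' : ¬ (y ∈ S ∧ x ∈ S) := fun h'' => h ⟨h''.2, h''.1⟩
        simp only [c, h, h', dif_neg, not_false_iff]
    have h1 := hS c
    unfold GoodOn at h1
    push Not at h1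
    obtain ⟨b, f, hfi, hfS, hfa⟩ := h1 hsym
    refine ⟨b, fun i => e.symm ⟨f i, hfS i⟩, ?_, ?_⟩
    · intro i j hij
      have := e.symm.injective hij
      exact hfi (congrArg Subtype.val this)
    · intro i j hij
      have h2 := hfa i j hij
      have hcc : ∀ i j, c (f i) (f j) = c0 (e.symm ⟨f i, hfS i⟩) (e.symm ⟨f j, hfS j⟩) := by
        intro i j
        have : f i ∈ S ∧ f j ∈ S := ⟨hfS i, hfS j⟩
        simp only [c, this, dif_pos, and_self]
      refine ⟨?_, ?_, ?_⟩
      · show F.Adj (e (e.symm ⟨f i, hfS i⟩) : V) (e (e.symm ⟨f j, hfS j⟩) : V)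
        rw [e.apply_symm_apply, e.apply_symm_apply]
        exact h2.1
      · rw [← hcc]; exact h2.2.1
      · rw [← hcc]; exact h2.2.2
  · intro hA
    apply hT'
    intro c hc
    obtain ⟨b, f, hfi, hfa⟩ := hA (fun i j => c (e i) (e j)) (fun i j => hc _ _)
    refine ⟨b, fun i => (e (f i) : V), ?_, ?_⟩
    · intro i j hij
      exact hfi (e.injective (Subtype.ext hij))
    · intro i j hij
      have h2 := hfa i j hij
      exact ⟨h2.1, h2.2.1, h2.2.2⟩

end MP3240T
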