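import Pool.Agent.Lib.MP_3240be_co.H51.Defs

/-!
# MP_3240be_co, row GRD: greedy embedding of a tree

Induction on the number of vertices: remove a leaf different from the root.
-/

set_option autoImplicit false

namespace MP3240T

open Finset

theorem grd_aux {V : Type} (G : SimpleGraph V) (B : Set V) (g : V) (hg : g ∈ B) :
    ∀ (m : ℕ) (W : Type) [Fintype W] (T : SimpleGraph W), T.IsTree → Fintype.card W = m →
      ∀ r : W,
      (∀ x ∈ B, ∀ S : Finset V, x ∈ S → S.card < m → ∃ y ∈ B, y ∉ S ∧ G.Adj x y) →
      ∃ f : W → V, Function.Injective f ∧ (∀ i, f i ∈ B) ∧ f r = g ∧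
        ∀ i j, T.Adj i j → G.Adj (f i) (f j) := by
  classical
  intro m
  induction m with
  | zero =>
    intro W _ T _ hc r
    exact absurd hc (Nat.pos_iff_ne_zero.mp (Fintype.card_pos_iff.mpr ⟨r⟩))
  | succ m ih =>
    intro W _ T hT hc r hgr
    rcases subsingleton_or_nontrivial W with hs | hn
    · refine ⟨fun _ => g, fun a b _ => Subsingleton.elim a b, fun _ => hg, rfl, fun i j hij => ?_⟩
      exact absurd (Subsingleton.elim i j) hij.ne
    · obtain ⟨u, v, huv, hu, hv⟩ := hT.exists_ne_and_degree_eq_one
      obtain ⟨w, hwr, hw⟩ : ∃ w, w ≠ r ∧ T.degree w = 1 := by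
        by_cases h : u = r
        · exact ⟨v, fun h' => huv (h.trans h'.symm), hv⟩
        · exact ⟨u, h, hu⟩
      have hT' : (T.induce ({w}ᶜ : Set W)).IsTree :=
        ⟨hT.connected.induce_compl_singleton_of_degree_eq_one hw, hT.isAcyclic.induce _⟩
      have hcard : Fintype.card ↥({w}ᶜ : Set W) = m := by
        rw [Fintype.card_compl_set, hc]
        simp
      obtain ⟨f, hfi, hfB, hfr, hfa⟩ := ih ↥({w}ᶜ : Set W) (T.induce ({w}ᶜ : Set W)) hT' hcard
        ⟨r, fun h => hwr h.symm⟩ (fun x hx S hxS hS => hgr x hx S hxS (by omega))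
      obtain ⟨p, hwp, hp⟩ := SimpleGraph.degree_eq_one_iff_existsUnique_adj.mp hw
      have hpw : p ≠ w := hwp.ne'
      set S : Finset V := Finset.univ.image f with hS
      have hSc : S.card = m := by
        rw [hS, Finset.card_image_of_injective _ hfi, Finset.card_univ, hcard]
      obtain ⟨y, hyB, hyS, hya⟩ := hgr (f ⟨p, hpw⟩) (hfB _) S
        (Finset.mem_image_of_mem f (Finset.mem_univ _)) (by omega)
      have hyf : ∀ z, f z ≠ y := fun z h => hyS (h ▸ Finset.mem_image_of_mem f (Finset.mem_univ z))
      refine ⟨fun x => if h : x = w then y else f ⟨x, h⟩, ?_, ?_, ?_, ?_⟩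
      · intro x x' hxx
        by_cases h : x = w <;> by_cases h' : x' = w
        · rw [h, h']
        · simp only [h, h', dif_pos, dif_neg, not_false_iff] at hxx
          exact absurd hxx.symm (hyf _)
        · simp only [h, h', dif_pos, dif_neg, not_false_iff] at hxx
          exact absurd hxx (hyf _)
        · simp only [h, h', dif_neg, not_false_iff] at hxx
          exact congrArg Subtype.val (hfi hxx)
      · intro x
        by_cases h : x = w
        · simp only [h, dif_pos]; exact hyB
        · simp only [h, dif_neg, not_false_iff]; exact hfB _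
      · have : ¬ r = w := fun h => hwr h.symm
        simp only [this, dif_neg, not_false_iff]
        exact hfr
      · intro i j hij
        by_cases h : i = w <;> by_cases h' : j = w
        · exact absurd (h.trans h'.symm) hij.ne
        · have hj : j = p := hp j (h ▸ hij)
          subst hj
          simp only [h, h', dif_pos, dif_neg, not_false_iff]
          exact hya.symm
        · have hj : i = p := hp i (h' ▸ hij.symm)
          subst hj
          simp only [h, h', dif_pos, dif_neg, not_false_iff]
          exact hya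
        · simp only [h, h', dif_neg, not_false_iff]
          exact hfa _ _ hij

theorem grd_proof : GrdStatement := by
  classical
  intro V G B n T K r g hT hr hg hgr
  obtain ⟨f, hfi, hfB, hfr, hfa⟩ := grd_aux G B g hg K.card ↥(K : Set (Fin n))
    (T.induce (K : Set (Fin n))) hT (by simp) ⟨r, hr⟩ hgr
  refine ⟨fun i => if h : i ∈ K then f ⟨i, h⟩ else g, ?_, ?_, ?_, ?_⟩
  · intro x hx x' hx' hxx
    have h : x ∈ K := hx
    have h' : x' ∈ K := hx'
    simp only [h, h', dif_pos] at hxx
    exact congrArg Subtype.val (hfi hxx)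
  · intro i hi
    simp only [hi, dif_pos]
    exact hfB _
  · simp only [hr, dif_pos]
    exact hfr
  · intro i hi j hj hij
    simp only [hi, hj, dif_pos]
    exact hfa ⟨i, hi⟩ ⟨j, hj⟩ hij

end MP3240T
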